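import Pool.Agent.helper23.CO.SpecB

/-! # CO row LDH -/

open Finset Filter Topology

namespace CO

open CU

lemma LDH_var (n : ℕ) [NeZero n] (x : ZMod n → ℝ) (m : ℝ) (hm : m = (∑ a, x a) / n) :
    (∑ a, x a ^ 2) / n - m ^ 2 = (∑ a, (x a - m) ^ 2) / n := by
  have hn : (n : ℝ) ≠ 0 := Nat.cast_ne_zero.2 (NeZero.ne n)
  have h1 : ∑ a, x a = m * n := by
    rw [hm]
    field_simp
  have h2 : ∑ a : ZMod n, (x a - m) ^ 2 = ∑ a, x a ^ 2 - 2 * m * ∑ a, x a + n * m ^ 2 := by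
    have h3 : ∀ a, (x a - m) ^ 2 = x a ^ 2 - 2 * m * x a + m ^ 2 := fun a => by ring
    simp only [h3]
    rw [Finset.sum_add_distrib, Finset.sum_sub_distrib, ← Finset.mul_sum, Finset.sum_const,
      Finset.card_univ, ZMod.card, nsmul_eq_mul]
  rw [h2, h1]
  field_simp
  ring

/-- many residues with a large deviation -/
lemma LDH_low (n : ℕ) [NeZero n] (x : ZMod n → ℝ) (m κ b c : ℝ) (hκ : 0 < κ) (hκ2 : κ ≤ 2)
    (hb : 1 ≤ b) (hc : 0 < c) (hcn : c ≤ n) (hc8 : (n : ℝ) ≤ 8 * c)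
    (hx : ∀ j : ℕ, (j : ℝ) ≤ κ * c / (4 * b) → κ / 2 ≤ |x (j : ZMod n) - m|) :
    κ ^ 3 / (128 * b) ≤ (∑ a, (x a - m) ^ 2) / n := by
  classical
  have hn : (0 : ℝ) < (n : ℝ) := Nat.cast_pos.2 (NeZero.pos n)
  have hb0 : 0 < b := by linarith
  set J : ℕ := ⌊κ * c / (4 * b)⌋₊ with hJ
  have h0 : 0 ≤ κ * c / (4 * b) := by positivity
  have hJle : (J : ℝ) ≤ κ * c / (4 * b) := Nat.floor_le h0
  have hJlt : κ * c / (4 * b) < (J : ℝ) + 1 := Nat.lt_floor_add_one _
  have hJn : J < n := by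
    have h1 : κ * c / (4 * b) < n := by
      rw [div_lt_iff₀ (by positivity)]
      nlinarith [mul_le_mul hκ2 hcn hc.le (by norm_num : (0 : ℝ) ≤ 2), mul_le_mul_of_nonneg_left hb hn.le]
    exact_mod_cast lt_of_le_of_lt hJle h1
  have hinj : Set.InjOn (fun j : ℕ => (j : ZMod n)) (range (J + 1) : Set ℕ) := by
    intro i hi j hj hij
    have hi' : i < J + 1 := mem_range.1 hi
    have hj' : j < J + 1 := mem_range.1 hj
    have h1 := (ZMod.natCast_eq_natCast_iff' i j n).1 hij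
    rwa [Nat.mod_eq_of_lt (by omega), Nat.mod_eq_of_lt (by omega)] at h1
  have hsum : ((J : ℝ) + 1) * (κ / 2) ^ 2 ≤ ∑ a, (x a - m) ^ 2 := by
    calc ((J : ℝ) + 1) * (κ / 2) ^ 2 = ∑ _j ∈ range (J + 1), (κ / 2) ^ 2 := by
          rw [Finset.sum_const, Finset.card_range, nsmul_eq_mul]
          push_cast
          ring
      _ ≤ ∑ j ∈ range (J + 1), (x (j : ZMod n) - m) ^ 2 := by
          refine Finset.sum_le_sum fun j hj => ?_
          have hj' : j ≤ J := by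
            have := mem_range.1 hj
            omega
          have h1 := hx j (le_trans (by exact_mod_cast hj') hJle)
          rw [← sq_abs (x (j : ZMod n) - m)]
          exact pow_le_pow_left₀ (by linarith) h1 2
      _ = ∑ a ∈ (range (J + 1)).image (fun j : ℕ => (j : ZMod n)), (x a - m) ^ 2 := by
          rw [Finset.sum_image hinj]
      _ ≤ ∑ a, (x a - m) ^ 2 :=
          Finset.sum_le_sum_of_subset_of_nonneg (subset_univ _) fun _ _ _ => sq_nonneg _
  rw [le_div_iff₀ hn]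
  refine le_trans ?_ hsum
  have h2 : κ * (n : ℝ) / (32 * b) ≤ (J : ℝ) + 1 := by
    refine le_trans ?_ hJlt.le
    rw [div_le_div_iff₀ (by positivity) (by positivity)]
    nlinarith [mul_le_mul_of_nonneg_left hc8 (by positivity : 0 ≤ κ * b)]
  calc κ ^ 3 / (128 * b) * n = κ * (n : ℝ) / (32 * b) * (κ / 2) ^ 2 := by
        field_simp
        ring
    _ ≤ ((J : ℝ) + 1) * (κ / 2) ^ 2 := mul_le_mul_of_nonneg_right h2 (sq_nonneg _)

theorem LDH (hEXB : EXB_stmt) (hKER : KER_stmt) (hLIP : LIP_stmt) (hLIN : CU.LIN_stmt) : LDH_stmt := by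
  classical
  intro d hd β κ₀ B hd2 hLC hms hκ₀
  set κ : ℝ := min κ₀ 2 with hκdef
  have hκ : 0 < κ := lt_min hκ₀ (by norm_num)
  have hκ2 : κ ≤ 2 := min_le_right _ _
  have hκκ : κ ≤ κ₀ := min_le_left _ _
  set b : ℝ := (B : ℝ) + 1 with hbdef
  have hb : 1 ≤ b := by
    have : (0 : ℝ) ≤ (B : ℝ) := Nat.cast_nonneg _
    linarith
  have hb0 : 0 < b := by linarith
  set v : ℝ := κ ^ 3 / (128 * b) with hv
  have hv0 : 0 < v := by positivity
  obtain ⟨θ, hθ, hev⟩ := hEXB d β (v / 2) hd2 hLC hms (by positivity)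
  refine ⟨θ * (v / 2), by positivity, ?_⟩
  filter_upwards [hev] with n hn I hI hB
  have hIne : I.Nonempty := by
    rw [← Finset.card_pos]
    omega
  have hI0 : (0 : ℝ) < (I.card : ℝ) := by exact_mod_cast Finset.card_pos.2 hIne
  have hIn : (I.card : ℝ) ≤ ((n + 3 : ℕ) : ℝ) := by
    have := Finset.card_le_univ I
    rw [ZMod.card] at this
    exact_mod_cast this
  have hI8 : ((n + 3 : ℕ) : ℝ) ≤ 8 * (I.card : ℝ) := by exact_mod_cast hI
  obtain ⟨k, hk1, hk2, hk3⟩ := hKER d (n + 3) hd I hIne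
  have hN : (0 : ℝ) < (Fintype.card (Site d (n + 3)) : ℝ) := by
    exact_mod_cast Fintype.card_pos
  have hk1' : ∀ z, 0 ≤ k z ∧ k z ≤ 8 / (Fintype.card (Site d (n + 3)) : ℝ) := by
    intro z
    refine ⟨(hk1 z).1, (hk1 z).2.trans ?_⟩
    refine div_le_div_of_nonneg_right ?_ hN.le
    rw [div_le_iff₀ hI0]
    exact hI8
  have hex := hn k 1 zero_le_one le_rfl hk1' hk2
  -- the variance is large on the event
  have hlow : ∀ σ : Conf d (n + 3), κ ≤ |mI hd I σ - Mg σ / (Fintype.card (Site d (n + 3)) : ℝ)| →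
      v ≤ Qf k σ - (Mg σ / (Fintype.card (Site d (n + 3)) : ℝ)) ^ 2 := by
    intro σ hσ
    obtain ⟨hQ, hm⟩ := hk3 σ
    rw [hQ, LDH_var (n + 3) (fun a => mI hd (I.image fun u => u + a) σ) _ hm]
    refine LDH_low (n + 3) _ _ κ b I.card hκ hκ2 hb hI0 hIn hI8 ?_
    intro j hj
    have h1 := hLIP d (n + 3) hd I σ j hIne
    have h2 : 2 * (j : ℝ) * bdI I / I.card ≤ κ / 2 := by
      have h3 : (bdI I : ℝ) ≤ b := by
        have : (bdI I : ℝ) ≤ (B : ℝ) := by exact_mod_cast hB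
        linarith
      rw [div_le_iff₀ hI0]
      rw [le_div_iff₀ (by positivity)] at hj
      have h4 : 2 * (j : ℝ) * bdI I ≤ 2 * (j : ℝ) * b :=
        mul_le_mul_of_nonneg_left h3 (by positivity)
      linarith
    have h3 : |mI hd I σ - Mg σ / (Fintype.card (Site d (n + 3)) : ℝ)| ≤
        |mI hd (I.image fun u => u + (j : ZMod (n + 3))) σ - mI hd I σ| +
        |mI hd (I.image fun u => u + (j : ZMod (n + 3))) σ - Mg σ / (Fintype.card (Site d (n + 3)) : ℝ)| := by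
      have h4 := abs_sub_le (mI hd I σ) (mI hd (I.image fun u => u + (j : ZMod (n + 3))) σ)
        (Mg σ / (Fintype.card (Site d (n + 3)) : ℝ))
      rwa [abs_sub_comm (mI hd I σ) (mI hd (I.image fun u => u + (j : ZMod (n + 3))) σ)] at h4
    show κ / 2 ≤ |mI hd (I.image fun u => u + (j : ZMod (n + 3))) σ - Mg σ / (Fintype.card (Site d (n + 3)) : ℝ)|
    linarith
  set D : ℝ := ((n : ℝ) + 3) ^ (d - 1) with hD
  have hD0 : 0 < D := by positivity
  have hcast : (((n + 3 : ℕ) : ℝ)) ^ (d - 1) = D := by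
    rw [hD]
    push_cast
    ring
  have hpt : ∀ σ : Conf d (n + 3),
      ({σ : Conf d (n + 3) | κ₀ ≤ |mI hd I σ - Mg σ / (Fintype.card (Site d (n + 3)) : ℝ)|} : Set _).indicator
        (fun _ => (1 : ℝ)) σ ≤ Real.exp (-(θ * (D * v))) * Real.exp (θ * Yk k 1 (-1) σ) := by
    intro σ
    by_cases hσ : κ₀ ≤ |mI hd I σ - Mg σ / (Fintype.card (Site d (n + 3)) : ℝ)|
    · rw [Set.indicator_of_mem (show σ ∈ {σ : Conf d (n + 3) | κ₀ ≤
        |mI hd I σ - Mg σ / (Fintype.card (Site d (n + 3)) : ℝ)|} from hσ), ← Real.exp_add]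
      rw [Real.one_le_exp_iff]
      have h1 := hlow σ (hκκ.trans hσ)
      have h2 : D * v ≤ Yk k 1 (-1) σ := by
        unfold Yk
        rw [hcast]
        refine mul_le_mul_of_nonneg_left ?_ hD0.le
        linarith
      have h3 := mul_le_mul_of_nonneg_left h2 hθ.le
      linarith
    · rw [Set.indicator_of_notMem (show σ ∉ {σ : Conf d (n + 3) | κ₀ ≤
        |mI hd I σ - Mg σ / (Fintype.card (Site d (n + 3)) : ℝ)|} from hσ)]
      positivity
  have hlin := hLIN d (n + 3) β (fun σ : Conf d (n + 3) => Real.exp (θ * Yk k 1 (-1) σ))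
    (fun _ => 0) (Real.exp (-(θ * (D * v)))) 0 0
  have h1 : PrE β {σ : Conf d (n + 3) | κ₀ ≤ |mI hd I σ - Mg σ / (Fintype.card (Site d (n + 3)) : ℝ)|} ≤
      Ex β (fun σ : Conf d (n + 3) => Real.exp (-(θ * (D * v))) * Real.exp (θ * Yk k 1 (-1) σ)) :=
    (hLIN d (n + 3) β _ (fun σ : Conf d (n + 3) =>
      Real.exp (-(θ * (D * v))) * Real.exp (θ * Yk k 1 (-1) σ)) 0 0 0).2.2.2.1 hpt
  have h2 : Ex β (fun σ : Conf d (n + 3) => Real.exp (-(θ * (D * v))) * Real.exp (θ * Yk k 1 (-1) σ)) =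
      Real.exp (-(θ * (D * v))) * Ex β (fun σ : Conf d (n + 3) => Real.exp (θ * Yk k 1 (-1) σ)) := by
    have := hlin.2.2.1
    simpa using this
  rw [h2] at h1
  refine h1.trans ?_
  calc Real.exp (-(θ * (D * v))) * Ex β (fun σ : Conf d (n + 3) => Real.exp (θ * Yk k 1 (-1) σ))
      ≤ Real.exp (-(θ * (D * v))) * Real.exp (θ * (D * ((1 - 1) * ms d β ^ 2 + v / 2))) :=
        mul_le_mul_of_nonneg_left hex (Real.exp_pos _).le
    _ = Real.exp (-(θ * (v / 2)) * D) := by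
        rw [← Real.exp_add]
        congr 1
        ring

end CO
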